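import Pool.Agent.Lib.MP_361a6f_ag.Geom

/-!
# The algebra of algebraic classes
-/

namespace Pool.Agent.Lib.MP_361a6f_ag

open CategoryTheory AlgebraicGeometry SmProj

universe u v

set_option linter.unusedSectionVars false

namespace WeilCohomology

variable {k : Type u} [Field k] {K : Type v} [Field K] [CharZero K] (W : WeilCohomology k K)

lemma Alg_zero (X : SmProj k) (j : ℕ) : (0 : W.H X) ∈ W.Alg X j :=
  ⟨∅, fun _ => 0, by simp, by simp⟩

lemma Alg_cl (X : SmProj k) (j : ℕ) (z : X.Pt) (hz : X.codim z = (j : ℕ∞)) :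
    W.cl X z ∈ W.Alg X j :=
  ⟨{z}, fun _ => 1, by simpa using hz, by simp⟩

lemma Alg_add {X : SmProj k} {j : ℕ} {x y : W.H X} (hx : x ∈ W.Alg X j) (hy : y ∈ W.Alg X j) :
    x + y ∈ W.Alg X j := by
  classical
  obtain ⟨s, a, hs, rfl⟩ := hx
  obtain ⟨t, b, ht, rfl⟩ := hy
  refine ⟨s ∪ t, fun z => (if z ∈ s then a z else 0) + (if z ∈ t then b z else 0), ?_, ?_⟩
  · intro z hz
    rcases Finset.mem_union.mp hz with h | h
    exacts [hs z h, ht z h]
  · simp only [Rat.cast_add, add_smul, Finset.sum_add_distrib]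
    congr 1
    · rw [← Finset.sum_subset (Finset.subset_union_left (s₁ := s) (s₂ := t))]
      · exact Finset.sum_congr rfl fun z hz => by rw [if_pos hz]
      · intro z _ hz
        rw [if_neg hz]; simp
    · rw [← Finset.sum_subset (Finset.subset_union_right (s₁ := s) (s₂ := t))]
      · exact Finset.sum_congr rfl fun z hz => by rw [if_pos hz]
      · intro z _ hz
        rw [if_neg hz]; simp

lemma Alg_smul {X : SmProj k} {j : ℕ} {x : W.H X} (c : ℚ) (hx : x ∈ W.Alg X j) :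
    (c : K) • x ∈ W.Alg X j := by
  obtain ⟨s, a, hs, rfl⟩ := hx
  refine ⟨s, fun z => c * a z, hs, ?_⟩
  rw [Finset.smul_sum]
  refine Finset.sum_congr rfl fun z _ => ?_
  rw [smul_smul]; push_cast; rfl

lemma Alg_neg {X : SmProj k} {j : ℕ} {x : W.H X} (hx : x ∈ W.Alg X j) :
    -x ∈ W.Alg X j := by
  have := W.Alg_smul (-1) hx
  simpa using this

lemma Alg_sum {X : SmProj k} {j : ℕ} {ι : Type*} (s : Finset ι) (f : ι → W.H X)
    (h : ∀ i ∈ s, f i ∈ W.Alg X j) : ∑ i ∈ s, f i ∈ W.Alg X j := by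
  classical
  induction s using Finset.induction_on with
  | empty => simpa using W.Alg_zero X j
  | insert i s hi ih =>
    rw [Finset.sum_insert hi]
    exact W.Alg_add (h i (Finset.mem_insert_self _ _))
      (ih fun i' hi' => h i' (Finset.mem_insert_of_mem hi'))

lemma Alg_mem_gr {X : SmProj k} {j : ℕ} {x : W.H X} (hx : x ∈ W.Alg X j) :
    x ∈ W.gr X (2 * j) := by
  obtain ⟨s, a, hs, rfl⟩ := hx
  exact Submodule.sum_mem _ fun z hz => Submodule.smul_mem _ _ (W.cycles.cl_gr X z j (hs z hz))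

lemma Alg_mul {X : SmProj k} {i j : ℕ} {x y : W.H X} (hx : x ∈ W.Alg X i) (hy : y ∈ W.Alg X j) :
    x * y ∈ W.Alg X (i + j) := by
  obtain ⟨s, a, hs, rfl⟩ := hx
  obtain ⟨t, b, ht, rfl⟩ := hy
  rw [Finset.sum_mul]
  refine W.Alg_sum _ _ fun z hz => ?_
  rw [smul_mul_assoc]
  refine W.Alg_smul _ ?_
  rw [Finset.mul_sum]
  refine W.Alg_sum _ _ fun w hw => ?_
  rw [mul_smul_comm]
  refine W.Alg_smul _ ?_
  exact W.cycleProducts.cl_mul X z w i j (hs z hz) (ht w hw)

lemma Alg_pull {X Y : SmProj k} (f : Mor Y X) {j : ℕ} {x : W.H X} (hx : x ∈ W.Alg X j) :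
    W.pull f x ∈ W.Alg Y j := by
  obtain ⟨s, a, hs, rfl⟩ := hx
  rw [map_sum]
  refine W.Alg_sum _ _ fun z hz => ?_
  rw [map_smul]
  refine W.Alg_smul _ ?_
  exact W.cycleProducts.cl_pull f z j (hs z hz)

lemma Alg_one (X : SmProj k) : (1 : W.H X) ∈ W.Alg X 0 := by
  rw [← W.cycles.cl_generic X]
  refine W.Alg_cl X 0 _ ?_
  rw [codim_generic]
  rfl

/-- Sums of algebraic classes of various codimensions. -/
def TotAlg (X : SmProj k) : Set (W.H X) :=
  {x | ∃ (N : ℕ) (y : ℕ → W.H X), (∀ j, y j ∈ W.Alg X j) ∧ x = ∑ j ∈ Finset.range N, y j}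

lemma TotAlg_of_Alg {X : SmProj k} {j : ℕ} {x : W.H X} (hx : x ∈ W.Alg X j) :
    x ∈ W.TotAlg X := by
  classical
  refine ⟨j + 1, fun i => if i = j then x else 0, ?_, ?_⟩
  · intro i
    by_cases h : i = j
    · simp only [h, if_true]; exact hx
    · simp only [h, if_false]; exact W.Alg_zero X i
  · rw [Finset.sum_ite_eq']
    simp

lemma TotAlg_add {X : SmProj k} {x y : W.H X} (hx : x ∈ W.TotAlg X) (hy : y ∈ W.TotAlg X) :
    x + y ∈ W.TotAlg X := by
  classical
  obtain ⟨N, a, ha, rfl⟩ := hx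
  obtain ⟨M, b, hb, rfl⟩ := hy
  refine ⟨N + M, fun j => (if j < N then a j else 0) + (if j < M then b j else 0), ?_, ?_⟩
  · intro j
    refine W.Alg_add ?_ ?_
    · split_ifs
      exacts [ha j, W.Alg_zero X j]
    · split_ifs
      exacts [hb j, W.Alg_zero X j]
  · rw [Finset.sum_add_distrib]
    congr 1
    · rw [← Finset.sum_filter]
      refine Finset.sum_congr ?_ fun _ _ => rfl
      ext j
      simp only [Finset.mem_range, Finset.mem_filter]
      omega
    · rw [← Finset.sum_filter]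
      refine Finset.sum_congr ?_ fun _ _ => rfl
      ext j
      simp only [Finset.mem_range, Finset.mem_filter]
      omega

lemma TotAlg_zero (X : SmProj k) : (0 : W.H X) ∈ W.TotAlg X :=
  W.TotAlg_of_Alg (W.Alg_zero X 0)

lemma TotAlg_sum {X : SmProj k} {ι : Type*} (s : Finset ι) (f : ι → W.H X)
    (h : ∀ i ∈ s, f i ∈ W.TotAlg X) : ∑ i ∈ s, f i ∈ W.TotAlg X := by
  classical
  induction s using Finset.induction_on with
  | empty => simpa using W.TotAlg_zero X
  | insert i s hi ih =>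
    rw [Finset.sum_insert hi]
    exact W.TotAlg_add (h i (Finset.mem_insert_self _ _))
      (ih fun i' hi' => h i' (Finset.mem_insert_of_mem hi'))

lemma TotAlg_smul {X : SmProj k} {x : W.H X} (c : ℚ) (hx : x ∈ W.TotAlg X) :
    (c : K) • x ∈ W.TotAlg X := by
  obtain ⟨N, a, ha, rfl⟩ := hx
  refine ⟨N, fun j => (c : K) • a j, fun j => W.Alg_smul c (ha j), ?_⟩
  rw [Finset.smul_sum]

lemma TotAlg_mul {X : SmProj k} {x y : W.H X} (hx : x ∈ W.TotAlg X) (hy : y ∈ W.TotAlg X) :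
    x * y ∈ W.TotAlg X := by
  obtain ⟨N, a, ha, rfl⟩ := hx
  obtain ⟨M, b, hb, rfl⟩ := hy
  rw [Finset.sum_mul]
  refine W.TotAlg_sum _ _ fun i _ => ?_
  rw [Finset.mul_sum]
  exact W.TotAlg_sum _ _ fun j _ => W.TotAlg_of_Alg (W.Alg_mul (ha i) (hb j))

/-- The homogeneous elements among the sums of algebraic classes are algebraic. -/
lemma Alg_of_TotAlg {X : SmProj k} {j : ℕ} {x : W.H X} (hx : x ∈ W.TotAlg X)
    (hj : x ∈ W.gr X (2 * j)) : x ∈ W.Alg X j := by
  classical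
  obtain ⟨N, y, hy, rfl⟩ := hx
  have h1 : (DirectSum.decompose (W.gr X) (∑ i ∈ Finset.range N, y i) (2 * j) : W.H X) =
      ∑ i ∈ Finset.range N, y i := DirectSum.decompose_of_mem_same _ hj
  rw [← h1, DirectSum.decompose_sum, DirectSum.sum_apply, AddSubmonoidClass.coe_finsetSum]
  refine W.Alg_sum _ _ fun i _ => ?_
  by_cases h : i = j
  · subst h
    rw [DirectSum.decompose_of_mem_same _ (W.Alg_mem_gr (hy i))]
    exact hy i
  · rw [DirectSum.decompose_of_mem_ne _ (W.Alg_mem_gr (hy i)) (by omega)]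
    exact W.Alg_zero X j

end WeilCohomology

end Pool.Agent.Lib.MP_361a6f_ag
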