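import Pool.Agent.Lib.MP_361a6f_ag.Even

/-!
# Automorphisms, rationality of traces
-/

namespace Pool.Agent.Lib.MP_361a6f_ag

open CategoryTheory AlgebraicGeometry SmProj

universe u v

variable {k : Type u} [Field k]

lemma isIso_left {X : SmProj k} (f g : Mor X X) (h1 : SmProj.comp g f = idm X)
    (h2 : SmProj.comp f g = idm X) : IsIso f.left := by
  refine ⟨g.left, ?_, ?_⟩
  · rw [← Over.comp_left]
    change (SmProj.comp g f).left = _
    rw [h1, Over.id_left]
  · rw [← Over.comp_left]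
    change (SmProj.comp f g).left = _
    rw [h2, Over.id_left]

lemma im_eq_of_iso {X : SmProj k} (f g : Mor X X) (h1 : SmProj.comp g f = idm X)
    (h2 : SmProj.comp f g = idm X) : im f = im (idm X) := by
  have hfl : IsIso f.left := isIso_left f g h1 h2
  have := genericPoint_eq_of_isOpenImmersion f.left
  exact this

lemma isClosedImm_of_iso {X : SmProj k} (f g : Mor X X) (h1 : SmProj.comp g f = idm X)
    (h2 : SmProj.comp f g = idm X) : IsClosedImm f := by
  have hfl : IsIso f.left := isIso_left f g h1 h2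
  infer_instance

namespace WeilCohomology

variable {K : Type v} [Field K] (W : WeilCohomology k K)

/-- the trace is invariant under automorphisms -/
lemma tr_pull_iso {X : SmProj k} (f g : Mor X X) (h1 : SmProj.comp g f = idm X)
    (h2 : SmProj.comp f g = idm X) (x : W.H X) : W.tr X (W.pull f x) = W.tr X x := by
  rw [← W.cycles.cl_push f (isClosedImm_of_iso f g h1 h2), im_eq_of_iso f g h1 h2,
    W.cycles.cl_generic, one_mul]

variable [CharZero K]

/-- traces of algebraic classes are rational -/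
lemma tr_rat_alg {X : SmProj k} {j : ℕ} {x : W.H X} (hx : x ∈ W.Alg X j) :
    ∃ c : ℚ, W.tr X x = (c : K) := by
  by_cases h : j = X.dim
  · subst h; exact W.tr_rat hx
  · exact ⟨0, by rw [W.poincare.tr_vanish X (2 * j) x (by omega) (W.Alg_mem_gr hx)]; simp⟩

lemma tr_rat_tot {X : SmProj k} {x : W.H X} (hx : x ∈ W.TotAlg X) :
    ∃ c : ℚ, W.tr X x = (c : K) := by
  obtain ⟨N, y, hy, rfl⟩ := hx
  choose c hc using fun j => W.tr_rat_alg (hy j)
  refine ⟨∑ j ∈ Finset.range N, c j, ?_⟩
  rw [map_sum]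
  push_cast
  exact Finset.sum_congr rfl fun j _ => hc j

lemma TotAlg_list_prod {X : SmProj k} (L : List (W.H X)) (h : ∀ x ∈ L, x ∈ W.TotAlg X) :
    L.prod ∈ W.TotAlg X := by
  induction L with
  | nil => exact W.TotAlg_of_Alg (W.Alg_one X)
  | cons a L ih =>
    rw [List.prod_cons]
    exact W.TotAlg_mul (h a List.mem_cons_self) (ih fun x hx => h x (List.mem_cons_of_mem _ hx))

lemma TotAlg_ext {m : ℕ} {Y : Fin m → SmProj k} {P : SmProj k} (p : ∀ a, Mor P (Y a))
    (x : ∀ a, W.H (Y a)) (hx : ∀ a, ∃ j, x a ∈ W.Alg (Y a) j) : W.ext p x ∈ W.TotAlg P := by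
  refine W.TotAlg_list_prod _ fun y hy => ?_
  rw [List.mem_ofFn] at hy
  obtain ⟨a, rfl⟩ := hy
  obtain ⟨j, hj⟩ := hx a
  exact W.TotAlg_of_Alg (W.Alg_pull (p a) hj)

end WeilCohomology

end Pool.Agent.Lib.MP_361a6f_ag
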