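import Pool.Agent.Lib.MP_361a6f_ag.Weil

/-!
# Commutativity and generalities
-/

namespace Pool.Agent.Lib.MP_361a6f_ag

open CategoryTheory AlgebraicGeometry SmProj

universe u v

namespace WeilCohomology

variable {k : Type u} [Field k] {K : Type v} [Field K] (W : WeilCohomology k K)

/-- even-degree elements are central -/
lemma even_central {X : SmProj k} {i : ℕ} (hi : Even i) {x : W.H X} (hx : x ∈ W.gr X i)
    (y : W.H X) : x * y = y * x := by
  classical
  have : y = ∑ j ∈ (DirectSum.decompose (W.gr X) y).support,
      (DirectSum.decompose (W.gr X) y j : W.H X) := (DirectSum.sum_support_decompose _ y).symm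
  rw [this, Finset.mul_sum, Finset.sum_mul]
  refine Finset.sum_congr rfl fun j _ => ?_
  rw [W.basic.comm X i j x _ hx (SetLike.coe_mem _)]
  have h : (-1 : W.H X) ^ (i * j) = 1 := Even.neg_one_pow (hi.mul_right j)
  rw [h, one_mul]

/-- If all odd cohomology vanishes then every element is central after pull-back. -/
lemma pull_central {X P : SmProj k} (hodd : ∀ i, Odd i → W.gr X i = ⊥) (f : Mor P X)
    (x : W.H X) (y : W.H P) : W.pull f x * y = y * W.pull f x := by
  classical
  have : x = ∑ j ∈ (DirectSum.decompose (W.gr X) x).support,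
      (DirectSum.decompose (W.gr X) x j : W.H X) := (DirectSum.sum_support_decompose _ x).symm
  rw [this, map_sum, Finset.mul_sum, Finset.sum_mul]
  refine Finset.sum_congr rfl fun j _ => ?_
  rcases Nat.even_or_odd j with hj | hj
  · exact W.even_central hj (W.functorial.pull_gr f j _ (SetLike.coe_mem _)) y
  · have hz : ∀ z ∈ W.gr X j, z = 0 := fun z hz => by
      rw [hodd j hj] at hz; simpa using hz
    have h0 : (DirectSum.decompose (W.gr X) x j : W.H X) = 0 := hz _ (SetLike.coe_mem _)
    rw [h0, map_zero, zero_mul, mul_zero]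

/-- The products `p_0^* x_0 ⋯ p_{m-1}^* x_{m-1}` span the cohomology of a product. -/
lemma span_ext {m : ℕ} (Y : Fin m → SmProj k) (P : SmProj k) (p : ∀ a, Mor P (Y a))
    (hP : IsProd Y P p) : Submodule.span K (Set.range (W.ext p)) = ⊤ := by
  have hfin : ∀ a, Module.Finite K (W.H (Y a)) := fun a => W.basic.finite (Y a)
  have h := (W.kunneth Y P p hP (fun a => Module.finrank K (W.H (Y a)))
    (fun a => Module.finBasis K (W.H (Y a)))).2
  rw [eq_top_iff, ← h]
  refine Submodule.span_mono ?_
  rintro _ ⟨i, rfl⟩
  exact ⟨_, rfl⟩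

/-- The cohomology of a product of varieties without odd cohomology is commutative. -/
lemma comm_of_prod {m : ℕ} {X P : SmProj k} (hodd : ∀ i, Odd i → W.gr X i = ⊥)
    (p : Fin m → Mor P X) (hP : IsProd (fun _ => X) P p)
    (x y : W.H P) : x * y = y * x := by
  have hx : x ∈ Submodule.span K (Set.range (W.ext p)) := by
    rw [W.span_ext _ P p hP]; exact Submodule.mem_top
  induction hx using Submodule.span_induction with
  | mem x hx =>
    obtain ⟨z, rfl⟩ := hx
    have hz : ∀ w ∈ List.ofFn (fun a => W.pull (p a) (z a)), w * y = y * w := by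
      intro w hw
      rw [List.mem_ofFn] at hw
      obtain ⟨a, rfl⟩ := hw
      exact W.pull_central hodd _ _ _
    have : ∀ L : List (W.H P), (∀ w ∈ L, w * y = y * w) → L.prod * y = y * L.prod := by
      intro L
      induction L with
      | nil => intro _; simp
      | cons w L ih =>
        intro h
        rw [List.prod_cons, mul_assoc, ih (fun w' hw' => h w' (List.mem_cons_of_mem _ hw')),
          ← mul_assoc, h w (List.mem_cons_self), mul_assoc]
    exact this _ hz
  | zero => rw [zero_mul, mul_zero]
  | add s t _ _ hs ht => rw [add_mul, mul_add, hs, ht]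
  | smul c s _ hs => rw [smul_mul_assoc, mul_smul_comm, hs]

lemma comm_self {X : SmProj k} (hodd : ∀ i, Odd i → W.gr X i = ⊥) (x y : W.H X) :
    x * y = y * x := by
  have := W.pull_central hodd (idm X) x y
  rwa [W.functorial.pull_id] at this

end WeilCohomology

end Pool.Agent.Lib.MP_361a6f_ag
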