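import Pool.Agent.Lib.MP_361a6f_ag.Algebraic

/-!
# The commutative subalgebra of even-degree classes
-/

namespace Pool.Agent.Lib.MP_361a6f_ag

open CategoryTheory AlgebraicGeometry SmProj

universe u v

namespace WeilCohomology

variable {k : Type u} [Field k] {K : Type v} [Field K] (W : WeilCohomology k K)

/-- The subalgebra of classes of even degree. -/
def evenSub (X : SmProj k) : Subalgebra K (W.H X) where
  carrier := Submodule.span K {x | ∃ i, x ∈ W.gr X (2 * i)}
  mul_mem' := by
    intro a b ha hb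
    rw [SetLike.mem_coe] at ha hb ⊢
    induction ha using Submodule.span_induction with
    | mem x hx =>
      obtain ⟨i, hx⟩ := hx
      induction hb using Submodule.span_induction with
      | mem y hy =>
        obtain ⟨j, hy⟩ := hy
        refine Submodule.subset_span ⟨i + j, ?_⟩
        rw [mul_add]
        exact SetLike.mul_mem_graded hx hy
      | zero => rw [mul_zero]; exact Submodule.zero_mem _
      | add x' y _ _ hx' hy => rw [mul_add]; exact Submodule.add_mem _ hx' hy
      | smul c x' _ hx' => rw [mul_smul_comm]; exact Submodule.smul_mem _ _ hx'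
    | zero => rw [zero_mul]; exact Submodule.zero_mem _
    | add x y _ _ hx hy => rw [add_mul]; exact Submodule.add_mem _ hx hy
    | smul c x _ hx => rw [smul_mul_assoc]; exact Submodule.smul_mem _ _ hx
  add_mem' := fun ha hb => Submodule.add_mem _ ha hb
  algebraMap_mem' := by
    intro c
    rw [SetLike.mem_coe, Algebra.algebraMap_eq_smul_one]
    refine Submodule.smul_mem _ _ (Submodule.subset_span ⟨0, ?_⟩)
    rw [mul_zero]
    exact SetLike.GradedOne.one_mem

lemma mem_evenSub {X : SmProj k} {i : ℕ} {x : W.H X} (hx : x ∈ W.gr X (2 * i)) :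
    x ∈ W.evenSub X :=
  Submodule.subset_span ⟨i, hx⟩

lemma even_induction {X : SmProj k} {p : W.H X → Prop} {x : W.H X} (hx : x ∈ W.evenSub X)
    (h1 : ∀ i, ∀ x ∈ W.gr X (2 * i), p x) (h0 : p 0) (h2 : ∀ x y, p x → p y → p (x + y))
    (h3 : ∀ (c : K) x, p x → p (c • x)) : p x := by
  have hx' : x ∈ Submodule.span K {x | ∃ i, x ∈ W.gr X (2 * i)} := hx
  clear hx
  induction hx' using Submodule.span_induction with
  | mem x hx => obtain ⟨i, hx⟩ := hx; exact h1 i x hx
  | zero => exact h0
  | add x y _ _ hx' hy' => exact h2 x y hx' hy'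
  | smul c x _ hx' => exact h3 c x hx'

/-- even classes are central -/
lemma evenSub_comm {X : SmProj k} {x : W.H X} (hx : x ∈ W.evenSub X) (y : W.H X) :
    x * y = y * x := by
  refine W.even_induction hx (p := fun x => x * y = y * x) ?_ ?_ ?_ ?_
  · intro i x hx
    exact W.even_central (even_two_mul i) hx y
  · rw [zero_mul, mul_zero]
  · intro x x' h h'
    rw [add_mul, mul_add, h, h']
  · intro c x h
    rw [smul_mul_assoc, mul_smul_comm, h]

lemma evenSub_mul_comm (X : SmProj k) (x y : W.evenSub X) : x * y = y * x :=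
  Subtype.ext (W.evenSub_comm x.2 y.1)

/-- Pull-back of even classes. -/
noncomputable def pullE {X Y : SmProj k} (f : Mor Y X) : W.evenSub X →ₐ[K] W.evenSub Y :=
  ((W.pull f).comp (W.evenSub X).val).codRestrict (W.evenSub Y) (by
    rintro ⟨x, hx⟩
    change W.pull f x ∈ W.evenSub Y
    refine W.even_induction hx (p := fun x => W.pull f x ∈ W.evenSub Y) ?_ ?_ ?_ ?_
    · intro i x hx
      exact W.mem_evenSub (W.functorial.pull_gr f _ x hx)
    · rw [map_zero]; exact (W.evenSub Y).zero_mem
    · intro x y hx hy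
      rw [map_add]; exact (W.evenSub Y).add_mem hx hy
    · intro c x hx
      rw [map_smul]; exact (W.evenSub Y).smul_mem hx c)

@[simp] lemma coe_pullE {X Y : SmProj k} (f : Mor Y X) (x : W.evenSub X) :
    (W.pullE f x : W.H Y) = W.pull f (x : W.H X) := rfl

/-- The trace on even classes. -/
def trE (X : SmProj k) : W.evenSub X →ₗ[K] K := (W.tr X) ∘ₗ (W.evenSub X).val.toLinearMap

lemma trE_apply {X : SmProj k} (x : W.evenSub X) : W.trE X x = W.tr X (x : W.H X) := rfl

/-- rationality of the trace of algebraic classes of top codimension -/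
lemma tr_rat [CharZero K] {X : SmProj k} {x : W.H X} (hx : x ∈ W.Alg X X.dim) :
    ∃ c : ℚ, W.tr X x = (c : K) := by
  obtain ⟨s, a, hs, rfl⟩ := hx
  refine ⟨∑ y ∈ s, a y, ?_⟩
  rw [map_sum]
  push_cast
  refine Finset.sum_congr rfl fun y hy => ?_
  rw [map_smul, W.cycles.cl_point X y (hs y hy), smul_eq_mul, mul_one]

/-- algebraic classes of codimension zero are rational multiples of `1` -/
lemma Alg_zero_codim [CharZero K] {X : SmProj k} {x : W.H X} (hx : x ∈ W.Alg X 0) :
    ∃ c : ℚ, x = (c : K) • (1 : W.H X) := by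
  obtain ⟨s, a, hs, rfl⟩ := hx
  refine ⟨∑ y ∈ s, a y, ?_⟩
  push_cast
  rw [Finset.sum_smul]
  refine Finset.sum_congr rfl fun y hy => ?_
  have h1 : X.codim y = 0 := by
    have := hs y hy
    simpa using this
  have h2 : y = im (idm X) := by
    unfold SmProj.codim at h1
    rw [Order.coheight_eq_zero] at h1
    have h3 : genericPoint X.X.left ⤳ y := genericPoint_specializes y
    have h4 : y ≤ genericPoint X.X.left := h3
    have h5 : y ⤳ genericPoint X.X.left := h1 h4
    exact (h5.antisymm h3).eq
  rw [h2, W.cycles.cl_generic]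

/-- Poincare duality in complementary degrees. -/
lemma exists_dual {X : SmProj k} {i : ℕ} {x : W.H X} (hx : x ∈ W.gr X i) (hne : x ≠ 0) :
    ∃ j, i + j = 2 * X.dim ∧ ∃ y ∈ W.gr X j, W.tr X (x * y) = 1 := by
  classical
  obtain ⟨y, hy⟩ : ∃ y, W.tr X (x * y) ≠ 0 := by
    by_contra hcon
    push Not at hcon
    exact hne (W.poincare.duality X x hcon)
  have e : y = ∑ j ∈ (DirectSum.decompose (W.gr X) y).support,
      (DirectSum.decompose (W.gr X) y j : W.H X) := (DirectSum.sum_support_decompose _ y).symm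
  rw [e, Finset.mul_sum, map_sum] at hy
  obtain ⟨j, _, hj⟩ := Finset.exists_ne_zero_of_sum_ne_zero hy
  have hjmem : (DirectSum.decompose (W.gr X) y j : W.H X) ∈ W.gr X j := SetLike.coe_mem _
  refine ⟨j, ?_, (W.tr X (x * (DirectSum.decompose (W.gr X) y j : W.H X)))⁻¹ •
    (DirectSum.decompose (W.gr X) y j : W.H X), Submodule.smul_mem _ _ hjmem, ?_⟩
  · by_contra hcon
    exact hj (W.poincare.tr_vanish X (i + j) _ hcon (SetLike.mul_mem_graded hx hjmem))
  · rw [mul_smul_comm, map_smul, smul_eq_mul, inv_mul_cancel₀ hj]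

end WeilCohomology

end Pool.Agent.Lib.MP_361a6f_ag
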