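import Pool.Agent.Lib.MP_361a6f_ag.Comm

/-!
# Geometric lemmas: graphs, diagonals
-/

namespace Pool.Agent.Lib.MP_361a6f_ag

open CategoryTheory AlgebraicGeometry SmProj

universe u v

variable {k : Type u} [Field k]

/-- a section of a morphism between smooth projective varieties is a closed immersion -/
lemma isClosedImm_of_section {X Q : SmProj k} (δ : Mor X Q) (f : Mor Q X)
    (h : SmProj.comp f δ = idm X) : IsClosedImm δ := by
  have h1 : δ.left ≫ f.left = 𝟙 X.X.left := by
    rw [← Over.comp_left]
    change (SmProj.comp f δ).left = _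
    rw [h, Over.id_left]
  have := Q.proper
  have : IsSeparated (f.left ≫ X.X.hom) := by
    rw [Over.w]; infer_instance
  have : IsSeparated f.left := IsSeparated.of_comp f.left X.X.hom
  have : IsClosedImmersion (δ.left ≫ f.left) := by rw [h1]; infer_instance
  exact IsClosedImmersion.of_comp δ.left f.left

/-- points of a smooth projective variety have finite codimension -/
lemma exists_codim_eq (X : SmProj k) (z : X.Pt) : ∃ c : ℕ, X.codim z = c := by
  have := X.proper
  have : IsLocallyNoetherian (Spec (CommRingCat.of k)) := inferInstance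
  have : IsLocallyNoetherian X.X.left := LocallyOfFiniteType.isLocallyNoetherian X.X.hom
  have h1 : (Order.coheight z : WithBot ℕ∞) ≠ ⊤ := by
    rw [← ringKrullDim_stalk_eq_coheight]
    exact ringKrullDim_ne_top
  have h2 : Order.coheight z ≠ ⊤ := by
    intro h
    rw [h] at h1
    exact h1 rfl
  exact ⟨(Order.coheight z).toNat, (ENat.natCast_toNat h2).symm⟩

lemma codim_generic (X : SmProj k) : X.codim (im (idm X)) = 0 := by
  have h : im (idm X) = genericPoint X.X.left := rfl
  rw [h]
  unfold SmProj.codim
  rw [Order.coheight_eq_zero]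
  intro z hz
  exact genericPoint_specializes z

namespace WeilCohomology

variable {K : Type v} [Field K] (W : WeilCohomology k K)

/-- trace of `[Δ] · q_0^* x · q_1^* y`. -/
lemma tr_diag {X Q : SmProj k} (q : Fin 2 → Mor Q X) (δ : Mor X Q)
    (h0 : SmProj.comp (q 0) δ = idm X) (h1 : SmProj.comp (q 1) δ = idm X) (x y : W.H X) :
    W.tr Q (W.cl Q (im δ) * (W.pull (q 0) x * W.pull (q 1) y)) = W.tr X (x * y) := by
  rw [W.cycles.cl_push _ (isClosedImm_of_section _ (q 0) h0), map_mul, ← W.functorial.pull_comp,
    ← W.functorial.pull_comp, h0, h1, W.functorial.pull_id, W.functorial.pull_id]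

/-- Kunneth detection: a class on a product is zero if it pairs trivially with all
`p_0^* x_0 ⋯ p_{m-1}^* x_{m-1}`. -/
lemma eq_zero_of_prod {m : ℕ} {X P : SmProj k} (p : Fin m → Mor P X)
    (hP : IsProd (fun _ => X) P p) (z : W.H P)
    (h : ∀ x : Fin m → W.H X, W.tr P (z * W.ext p x) = 0) :
    z = 0 := by
  apply W.poincare.duality
  intro w
  have hw : w ∈ Submodule.span K (Set.range (W.ext p)) := by
    rw [W.span_ext _ P p hP]; exact Submodule.mem_top
  induction hw using Submodule.span_induction with
  | mem x hx =>
    obtain ⟨y, rfl⟩ := hx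
    exact h y
  | zero => rw [mul_zero, map_zero]
  | add s t _ _ hs ht => rw [mul_add, map_add, hs, ht, add_zero]
  | smul c s _ hs => rw [mul_smul_comm, map_smul, hs, smul_zero]

end WeilCohomology

end Pool.Agent.Lib.MP_361a6f_ag
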