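import Pool.Agent.Lib.MP_361a6f_ag.Auto

/-!
# Push-forward of algebraic classes, even and odd parts
-/

namespace Pool.Agent.Lib.MP_361a6f_ag

open CategoryTheory AlgebraicGeometry SmProj

universe u v

set_option linter.unusedSectionVars false

namespace WeilCohomology

variable {k : Type u} [Field k] {K : Type v} [Field K] [CharZero K] (W : WeilCohomology k K)

/-- push-forward of algebraic classes -/
lemma Alg_pushf {X Y : SmProj k} (f : Mor Y X) {c e : ℕ} (hce : c + X.dim = e + Y.dim)
    {z : W.H Y} (hz : z ∈ W.Alg Y c) :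
    ∃ w ∈ W.Alg X e, ∀ x : W.H X, W.tr X (w * x) = W.tr Y (z * W.pull f x) := by
  classical
  obtain ⟨s, a, hs, rfl⟩ := hz
  have h : ∀ y : Y.Pt, ∃ w : W.H X, y ∈ s → (w ∈ W.Alg X e ∧ ∀ x : W.H X,
      W.tr Y (W.cl Y y * W.pull f x) = W.tr X (w * x)) := by
    intro y
    by_cases hy : y ∈ s
    · obtain ⟨w, hw, hwx⟩ := W.cycleProducts.cl_pushf f y c e (hs y hy) hce
      exact ⟨w, fun _ => ⟨hw, hwx⟩⟩
    · exact ⟨0, fun h => absurd h hy⟩
  choose w hw using h
  refine ⟨∑ y ∈ s, ((a y : ℚ) : K) • w y, ?_, ?_⟩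
  · exact W.Alg_sum _ _ fun y hy => W.Alg_smul _ (hw y hy).1
  · intro x
    rw [Finset.sum_mul, map_sum, Finset.sum_mul, map_sum]
    refine Finset.sum_congr rfl fun y hy => ?_
    rw [smul_mul_assoc, map_smul, smul_mul_assoc, map_smul, (hw y hy).2]

/-- every class is the sum of its homogeneous components -/
lemma eq_sum_components {X : SmProj k} (x : W.H X) :
    ∃ (s : Finset ℕ) (y : ℕ → W.H X), (∀ j, y j ∈ W.gr X j) ∧ x = ∑ j ∈ s, y j := by
  classical
  exact ⟨(DirectSum.decompose (W.gr X) x).support,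
    fun j => (DirectSum.decompose (W.gr X) x j : W.H X), fun j => SetLike.coe_mem _,
    (DirectSum.sum_support_decompose _ x).symm⟩

/-- an even class which pairs trivially with all even classes is zero -/
lemma even_detect {X : SmProj k} {z : W.H X} (hz : z ∈ W.evenSub X)
    (h : ∀ y ∈ W.evenSub X, W.tr X (z * y) = 0) : z = 0 := by
  apply W.poincare.duality
  intro y
  obtain ⟨s, y, hy, rfl⟩ := W.eq_sum_components y
  rw [Finset.mul_sum, map_sum]
  refine Finset.sum_eq_zero fun j _ => ?_
  have hj := hy j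
  rcases Nat.even_or_odd' j with ⟨i, rfl | rfl⟩
  · exact h _ (W.mem_evenSub hj)
  · refine W.even_induction hz (p := fun z => W.tr X (z * _) = 0) ?_ ?_ ?_ ?_
    · intro l x hx
      exact W.poincare.tr_vanish X (2 * l + (2 * i + 1)) _ (by omega)
        (SetLike.mul_mem_graded hx hj)
    · rw [zero_mul, map_zero]
    · intro x x' hx hx'
      rw [add_mul, map_add, hx, hx', add_zero]
    · intro c x hx
      rw [smul_mul_assoc, map_smul, hx, smul_zero]

/-- Kunneth detection for an even class on a product of two varieties, the second of which has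
only even cohomology -/
lemma even_detect_prod {Z : Fin 2 → SmProj k} {P : SmProj k} (p : ∀ a, Mor P (Z a))
    (hP : IsProd Z P p) (hev : ∀ y : W.H (Z 1), y ∈ W.evenSub (Z 1)) {z : W.H P}
    (hz : z ∈ W.evenSub P)
    (h : ∀ u ∈ W.evenSub (Z 0), ∀ v : W.H (Z 1),
      W.tr P (z * (W.pull (p 0) u * W.pull (p 1) v)) = 0) : z = 0 := by
  apply W.poincare.duality
  intro w
  have hw : w ∈ Submodule.span K (Set.range (W.ext p)) := by
    rw [W.span_ext _ P p hP]; exact Submodule.mem_top
  induction hw using Submodule.span_induction with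
  | mem x hx =>
    obtain ⟨y, rfl⟩ := hx
    have e1 : W.ext p y = W.pull (p 0) (y 0) * W.pull (p 1) (y 1) := by
      simp [CohData.ext, List.ofFn_succ]
    obtain ⟨s, y0, hy0, he0⟩ := W.eq_sum_components (y 0)
    rw [e1, he0, map_sum, Finset.sum_mul, Finset.mul_sum, map_sum]
    refine Finset.sum_eq_zero fun j _ => ?_
    have hj := hy0 j
    rcases Nat.even_or_odd' j with ⟨i, rfl | rfl⟩
    · exact h _ (W.mem_evenSub hj) _
    · have hv := hev (y 1)
      have hzz := hz
      refine W.even_induction hv (p := fun v => W.tr P (z * (W.pull (p 0) _ * W.pull (p 1) v)) = 0)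
        ?_ ?_ ?_ ?_
      · intro l v hv
        refine W.even_induction hz
          (p := fun z => W.tr P (z * (W.pull (p 0) _ * W.pull (p 1) v)) = 0) ?_ ?_ ?_ ?_
        · intro m x hx
          refine W.poincare.tr_vanish P (2 * m + ((2 * i + 1) + 2 * l)) _ (by omega) ?_
          exact SetLike.mul_mem_graded hx (SetLike.mul_mem_graded
            (W.functorial.pull_gr (p 0) _ _ hj) (W.functorial.pull_gr (p 1) _ _ hv))
        · rw [zero_mul, map_zero]
        · intro x x' hx hx'
          rw [add_mul, map_add, hx, hx', add_zero]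
        · intro c x hx
          rw [smul_mul_assoc, map_smul, hx, smul_zero]
      · rw [map_zero, mul_zero, mul_zero, map_zero]
      · intro x x' hx hx'
        rw [map_add, mul_add, mul_add, map_add, hx, hx', add_zero]
      · intro c x hx
        rw [map_smul, mul_smul_comm, mul_smul_comm, map_smul, hx, smul_zero]
  | zero => rw [mul_zero, map_zero]
  | add s t _ _ hs ht => rw [mul_add, map_add, hs, ht, add_zero]
  | smul c s _ hs => rw [mul_smul_comm, map_smul, hs, smul_zero]

lemma mem_evenSub_of_alg {X : SmProj k} {j : ℕ} {x : W.H X} (hx : x ∈ W.Alg X j) :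
    x ∈ W.evenSub X := W.mem_evenSub (W.Alg_mem_gr hx)

lemma Alg_pow_one {X : SmProj k} {ξ : W.H X} (hξ : ξ ∈ W.Alg X 1) (s : ℕ) :
    ξ ^ s ∈ W.Alg X s := by
  induction s with
  | zero => rw [pow_zero]; exact W.Alg_one X
  | succ s ih => rw [pow_succ]; exact W.Alg_mul ih hξ

lemma Alg_vanish {X : SmProj k} {j : ℕ} {x : W.H X} (hx : x ∈ W.Alg X j) (hj : X.dim < j) :
    x = 0 := W.basic.vanish X (2 * j) x (by omega) (W.Alg_mem_gr hx)

end WeilCohomology

end Pool.Agent.Lib.MP_361a6f_ag
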