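import Mathlib

/-!
# Weil cohomology theories on smooth projective varieties

Everything is stated for genuine schemes over an (algebraically closed) field `k`.
-/

namespace Pool.Agent.Lib.MP_361a6f_ag

open CategoryTheory AlgebraicGeometry

universe u v

/-- The homogeneous polynomials of degree `d` in `N + 1` variables. -/
noncomputable def homog (k : Type u) [Field k] (N : ℕ) (d : ℕ) :
    Submodule k (MvPolynomial (Fin (N + 1)) k) :=
  MvPolynomial.homogeneousSubmodule (Fin (N + 1)) k d

noncomputable instance homogGraded (k : Type u) [Field k] (N : ℕ) : GradedAlgebra (homog k N) :=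
  MvPolynomial.gradedAlgebra

/-- Projective space of dimension `N` over `k`. -/
noncomputable def PSpace (k : Type u) [Field k] (N : ℕ) : Scheme.{u} :=
  Proj (homog k N)

/-- The ring of polynomials of degree zero. -/
def Const0 (k : Type u) [Field k] (N : ℕ) : Type u := homog k N 0

noncomputable instance const0Ring (k : Type u) [Field k] (N : ℕ) : CommRing (Const0 k N) :=
  SetLike.GradeZero.instCommRing (homog k N)

noncomputable instance const0Alg (k : Type u) [Field k] (N : ℕ) : Algebra k (Const0 k N) :=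
  SetLike.GradeZero.instAlgebra (homog k N)

/-- The inclusion of the constants. -/
noncomputable def constMap (k : Type u) [Field k] (N : ℕ) :
    CommRingCat.of k ⟶ CommRingCat.of (Const0 k N) :=
  CommRingCat.ofHom (algebraMap k (Const0 k N))

/-- The canonical morphism to the spectrum of the degree zero part. -/
noncomputable def PSpace.toSpec (k : Type u) [Field k] (N : ℕ) :
    PSpace k N ⟶ Spec (CommRingCat.of (Const0 k N)) :=
  Proj.toSpecZero (homog k N)

/-- The structure morphism of projective space. -/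
noncomputable def PSpace.str (k : Type u) [Field k] (N : ℕ) :
    PSpace k N ⟶ Spec (CommRingCat.of k) :=
  PSpace.toSpec k N ≫ Spec.map (constMap k N)

/-- A smooth projective variety over `k`: an integral `k`-scheme, smooth of relative dimension
`dim` over `k`, which admits a closed immersion over `k` into a projective space. -/
structure SmProj (k : Type u) [Field k] where
  /-- the underlying `k`-scheme -/
  X : Over (Spec (CommRingCat.of k))
  /-- the dimension -/
  dim : ℕ
  integral : IsIntegral X.left
  smooth : SmoothOfRelativeDimension dim X.hom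
  proper : IsProper X.hom
  projective : ∃ (N : ℕ) (i : X.left ⟶ PSpace k N), IsClosedImmersion i ∧
    i ≫ PSpace.str k N = X.hom

instance {k : Type u} [Field k] (X : SmProj k) : IsIntegral X.X.left := X.integral

namespace SmProj

variable {k : Type u} [Field k]

/-- The points of the variety `X` (schematic points). -/
abbrev Pt (X : SmProj k) : Type u := X.X.left

/-- The codimension of (the closure of) a point. -/
noncomputable def codim (X : SmProj k) (z : X.Pt) : ℕ∞ := Order.coheight z

/-- Morphisms of `k`-schemes `Y → X`. -/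
abbrev Mor (Y X : SmProj k) : Type u := Y.X ⟶ X.X

/-- The identity morphism. -/
noncomputable abbrev idm (X : SmProj k) : Mor X X := 𝟙 X.X

/-- The composite `f ∘ g`. -/
noncomputable abbrev comp {X Y Z : SmProj k} (f : Mor Y X) (g : Mor Z Y) : Mor Z X := g ≫ f

/-- The image in `X` of the generic point of `Y` under `f : Y → X`. -/
noncomputable def im {X Y : SmProj k} (f : Mor Y X) : X.Pt := f.left (genericPoint Y.X.left)

/-- `f : Y → X` is a closed immersion. -/
abbrev IsClosedImm {X Y : SmProj k} (f : Mor Y X) : Prop := IsClosedImmersion f.left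

/-- `P`, with the projections `p a`, is the product over `k` of the `Y a`. -/
def IsProd {m : ℕ} (Y : Fin m → SmProj k) (P : SmProj k) (p : ∀ a, Mor P (Y a)) : Prop :=
  Nonempty (Limits.IsLimit (Limits.Fan.mk P.X p))

/-- A power `X^m` with its projections `p a`. -/
structure Power (X : SmProj k) (m : ℕ) where
  V : SmProj k
  p : Fin m → Mor V X
  prod : IsProd (fun _ => X) V p

/-- A product `X × X` with its projections `q 0`, `q 1` and its diagonal morphism. -/
structure Square (X : SmProj k) where
  V : SmProj k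
  q : Fin 2 → Mor V X
  prod : IsProd (fun _ => X) V q
  diag : Mor X V
  diag_proj : ∀ i, SmProj.comp (q i) diag = idm X

end SmProj

open SmProj

/-- The data of a cohomology theory for smooth projective varieties over `k` with coefficients
in the field `K` (Tate twists are suppressed by a fixed orientation). -/
structure CohData (k : Type u) [Field k] (K : Type v) [Field K] where
  /-- the total cohomology `H^*(X)` -/
  H : SmProj k → Type v
  [ringH : ∀ X, Ring (H X)]
  [algH : ∀ X, Algebra K (H X)]
  /-- `gr X i` is `H^i(X)` -/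
  gr : ∀ X, ℕ → Submodule K (H X)
  [graded : ∀ X, GradedAlgebra (gr X)]
  /-- pull-back `f^* : H^*(X) → H^*(Y)` -/
  pull : ∀ {X Y : SmProj k}, Mor Y X → (H X →ₐ[K] H Y)
  /-- the trace map `H^{2 dim X}(X) → K`, extended by zero to the other degrees -/
  tr : ∀ X, H X →ₗ[K] K
  /-- the class of the closure of the point `z` of `X` -/
  cl : ∀ X : SmProj k, X.Pt → H X

attribute [instance] CohData.ringH CohData.algH CohData.graded

namespace CohData

variable {k : Type u} [Field k] {K : Type v} [Field K] (C : CohData k K)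

/-- The class `x` lies in `H^i(X)`. -/
def Deg (X : SmProj k) (i : ℕ) (x : C.H X) : Prop := x ∈ C.gr X i

/-- Finiteness, vanishing outside degrees `0, …, 2 dim X`, graded commutativity. -/
structure Basic : Prop where
  finite : ∀ X, Module.Finite K (C.H X)
  vanish : ∀ X i (x : C.H X), 2 * X.dim < i → C.Deg X i x → x = 0
  comm : ∀ X i j (x y : C.H X), C.Deg X i x → C.Deg X j y → x * y = (-1) ^ (i * j) * (y * x)

/-- Functoriality. -/
structure Functorial : Prop where
  pull_gr : ∀ {X Y : SmProj k} (f : Mor Y X) (i : ℕ) (x : C.H X), C.Deg X i x →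
    C.Deg Y i (C.pull f x)
  pull_id : ∀ {X : SmProj k} (x : C.H X), C.pull (idm X) x = x
  pull_comp : ∀ {X Y Z : SmProj k} (g : Mor Z Y) (f : Mor Y X) (x : C.H X),
    C.pull (SmProj.comp f g) x = C.pull g (C.pull f x)

/-- The trace isomorphism and Poincare duality. -/
structure Duality : Prop where
  tr_vanish : ∀ X i (x : C.H X), i ≠ 2 * X.dim → C.Deg X i x → C.tr X x = 0
  tr_bij : ∀ X (c : K), ∃! x : C.H X, C.Deg X (2 * X.dim) x ∧ C.tr X x = c
  duality : ∀ X (x : C.H X), (∀ y, C.tr X (x * y) = 0) → x = 0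

/-- `p_0^* x_0 ⋯ p_{m-1}^* x_{m-1}`. -/
def ext {m : ℕ} {Y : Fin m → SmProj k} {P : SmProj k} (p : ∀ a, Mor P (Y a))
    (x : ∀ a, C.H (Y a)) : C.H P :=
  (List.ofFn fun a => C.pull (p a) (x a)).prod

/-- Kunneth formula: for a finite product `P` of the `Y a`, the elements
`p_0^* x_0 ⋯ p_{m-1}^* x_{m-1}`, with `x_a` running through a basis of `H^*(Y a)`, form a basis
of `H^*(P)`. -/
def Kunneth : Prop :=
  ∀ {m : ℕ} (Y : Fin m → SmProj k) (P : SmProj k) (p : ∀ a, Mor P (Y a)), IsProd Y P p →
    ∀ (N : Fin m → ℕ) (b : ∀ a, Module.Basis (Fin (N a)) K (C.H (Y a))),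
      LinearIndependent K (fun i : ∀ a, Fin (N a) => C.ext p fun a => b a (i a)) ∧
      Submodule.span K (Set.range fun i : ∀ a, Fin (N a) => C.ext p fun a => b a (i a)) = ⊤

/-- The trace is multiplicative on products. -/
def TraceProd : Prop :=
  ∀ {m : ℕ} (Y : Fin m → SmProj k) (P : SmProj k) (p : ∀ a, Mor P (Y a)), IsProd Y P p →
    ∀ x : ∀ a, C.H (Y a), C.tr P (C.ext p x) = ∏ a, C.tr (Y a) (x a)

/-- `C^j(X)`: the rational linear combinations of the classes of closed subvarieties of
codimension `j`. -/
def Alg (X : SmProj k) (j : ℕ) : Set (C.H X) :=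
  {x | ∃ (s : Finset X.Pt) (a : X.Pt → ℚ), (∀ y ∈ s, X.codim y = (j : ℕ∞)) ∧
      x = ∑ y ∈ s, ((a y : ℚ) : K) • C.cl X y}

/-- The cycle class map: degrees, the class of `X`, the class of a point, classes of smooth closed
subvarieties `f : Y → X` (these are the push-forwards of `1`). -/
structure Cycles : Prop where
  cl_gr : ∀ X (z : X.Pt) (c : ℕ), X.codim z = (c : ℕ∞) → C.Deg X (2 * c) (C.cl X z)
  cl_generic : ∀ X : SmProj k, C.cl X (im (idm X)) = 1
  cl_point : ∀ X (z : X.Pt), X.codim z = (X.dim : ℕ∞) → C.tr X (C.cl X z) = 1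
  cl_push : ∀ {X Y : SmProj k} (f : Mor Y X), IsClosedImm f →
    ∀ x : C.H X, C.tr X (C.cl X (im f) * x) = C.tr Y (C.pull f x)

/-- Products, pull-backs and push-forwards of algebraic classes are algebraic. -/
structure CycleProducts : Prop where
  cl_mul : ∀ X (z w : X.Pt) (c e : ℕ), X.codim z = (c : ℕ∞) → X.codim w = (e : ℕ∞) →
    C.cl X z * C.cl X w ∈ C.Alg X (c + e)
  cl_pull : ∀ {X Y : SmProj k} (f : Mor Y X) (z : X.Pt) (c : ℕ), X.codim z = (c : ℕ∞) →
    C.pull f (C.cl X z) ∈ C.Alg Y c
  cl_pushf : ∀ {X Y : SmProj k} (f : Mor Y X) (z : Y.Pt) (c e : ℕ), Y.codim z = (c : ℕ∞) →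
    c + X.dim = e + Y.dim →
    ∃ w ∈ C.Alg X e, ∀ x : C.H X, C.tr Y (C.cl Y z * C.pull f x) = C.tr X (w * x)

end CohData

/-- A Weil cohomology theory on smooth projective varieties over `k` with coefficients in the
field `K`. -/
structure WeilCohomology (k : Type u) [Field k] (K : Type v) [Field K] extends
    CohData k K where
  basic : toCohData.Basic
  functorial : toCohData.Functorial
  poincare : toCohData.Duality
  kunneth : toCohData.Kunneth
  traceProd : toCohData.TraceProd
  cycles : toCohData.Cycles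
  cycleProducts : toCohData.CycleProducts

namespace CohData

variable {k : Type u} [Field k] {K : Type v} [Field K] (W : CohData k K)

/-- `x` lies in `C^j(X)` and is primitive with respect to `ξ`. -/
def AlgPrim (X : SmProj k) (ξ : W.H X) (j : ℕ) : Set (W.H X) :=
  {x | x ∈ W.Alg X j ∧ ξ ^ (X.dim - 2 * j + 1) * x = 0}

/-- The class `∑ p_a^* ξ` on `X^m`. -/
noncomputable def hyp {X : SmProj k} {m : ℕ} (P : Power X m) (ξ : W.H X) : W.H P.V :=
  ∑ a, W.pull (P.p a) ξ

/-- The form `⟨x,x⟩_j = (-1)^j Tr(x · x · ξ^{dim X - 2j})` takes a positive rational value at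
`x`. -/
def HodgePosAt (X : SmProj k) (ξ : W.H X) (j : ℕ) (x : W.H X) : Prop :=
  ∃ c : ℚ, 0 < c ∧ (-1) ^ j * W.tr X (x * x * ξ ^ (X.dim - 2 * j)) = (c : K)

/-- Q1 for the pair `(X, ξ)`: the form `⟨x,x⟩_j` is positive at every nonzero element `x` of
`C^j_Pr(X)`, for every `j` with `0 ≤ 2 j ≤ dim X`. -/
def HodgeType (X : SmProj k) (ξ : W.H X) : Prop :=
  ∀ j, 2 * j ≤ X.dim → ∀ x ∈ W.AlgPrim X ξ j, x ≠ 0 → W.HodgePosAt X ξ j x

/-- `X` has positive even dimension, `ξ` lies in `C^1(X)`, `Tr(ξ^dim X)` is a positive rational,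
and in every degree `i ≠ dim X` the cohomology `H^i(X)` is spanned by the powers of `ξ`. -/
structure MiddleType (X : SmProj k) (ξ : W.H X) : Prop where
  pos : 0 < X.dim
  even : Even X.dim
  alg : ξ ∈ W.Alg X 1
  degree : ∃ d : ℚ, 0 < d ∧ W.tr X (ξ ^ X.dim) = (d : K)
  gen : ∀ i (y : W.H X), i ≠ X.dim → W.Deg X i y →
    y = 0 ∨ ∃ (s : ℕ) (c : K), 2 * s = i ∧ y = c • ξ ^ s

end CohData

end Pool.Agent.Lib.MP_361a6f_ag
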